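import Pool.Agent.Helper17.FP.Stmts
import Pool.Agent.Helper17.SV.CNTZZ

set_option autoImplicit false

open Finset

namespace Pool.Agent.Helper17.FP

open Pool.Agent.Helper17.SO Pool.Agent.Helper17.SV

theorem fin_pow (L a : ℝ) (hL : 1 < L) (ha : 1 / 40 ≤ a) :
    L ^ (-a) ≤ 2 * (Real.log L) ^ (-(1 / 4) : ℝ) := by
  have hL0 : 0 < L := by linarith
  have hl : 0 < Real.log L := Real.log_pos hL
  obtain ⟨l, hldef⟩ : ∃ l : ℝ, l = Real.log L := ⟨_, rfl⟩
  rw [← hldef] at hl ⊢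
  have h1 : l ≤ 16 * Real.exp (l / 10) := by
    have := Real.add_one_le_exp (l / 10)
    have h2 := Real.exp_pos (l / 10)
    linarith
  have h2 : l ^ (1 / 4 : ℝ) ≤ 2 * Real.exp (l / 40) := by
    calc l ^ (1 / 4 : ℝ) ≤ (16 * Real.exp (l / 10)) ^ (1 / 4 : ℝ) :=
          Real.rpow_le_rpow hl.le h1 (by norm_num)
      _ = 16 ^ (1 / 4 : ℝ) * (Real.exp (l / 10)) ^ (1 / 4 : ℝ) :=
          Real.mul_rpow (by norm_num) (Real.exp_pos _).le
      _ = 2 * Real.exp (l / 40) := by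
          have h3 : (16 : ℝ) ^ (1 / 4 : ℝ) = 2 := by
            have : (16 : ℝ) = 2 ^ (4 : ℝ) := by norm_num
            rw [this, ← Real.rpow_mul (by norm_num)]
            norm_num
          rw [h3, ← Real.exp_mul]
          congr 2
          ring
  have h3 : L ^ a = Real.exp (a * l) := by
    rw [Real.rpow_def_of_pos hL0, ← hldef, mul_comm]
  have h4 : l ^ (1 / 4 : ℝ) ≤ 2 * L ^ a := by
    rw [h3]
    refine h2.trans ?_
    apply mul_le_mul_of_nonneg_left _ (by norm_num)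
    rw [Real.exp_le_exp]
    nlinarith
  have h5 : 0 < L ^ a := Real.rpow_pos_of_pos hL0 a
  have h6 : 0 < l ^ (1 / 4 : ℝ) := Real.rpow_pos_of_pos hl _
  rw [Real.rpow_neg hL0.le, Real.rpow_neg hl.le, ← div_eq_mul_inv, inv_eq_one_div,
    div_le_div_iff₀ h5 h6]
  linarith

theorem st_FIN (hRI : ST_RI) (hRII : ST_RII) (hRIII : ST_RIII) (hRIV : ST_RIV) : ST_FIN := by
  classical
  intro lam hlam
  obtain ⟨C1, hC1, H1⟩ := hRI lam hlam
  obtain ⟨C2, hC2, H2⟩ := hRII lam hlam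
  obtain ⟨C3, hC3, H3⟩ := hRIII lam hlam
  obtain ⟨C4, hC4, H4⟩ := hRIV lam hlam
  refine ⟨4 + 2 * C1 + C2 + 2 * C3 + C4, by positivity, ?_⟩
  intro x hx S hS
  have hx' : (16 : ℝ) ≤ x := by exact_mod_cast hx
  have hx0 : (0 : ℝ) < x := by linarith
  have hL1 : 1 < Real.log x := by
    rw [Real.lt_log_iff_exp_lt hx0]
    have := Real.exp_one_lt_d9
    linarith
  obtain ⟨L, hL⟩ : ∃ L : ℝ, L = Real.log x := ⟨_, rfl⟩
  have hL1' : 1 < L := by rw [hL]; exact hL1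
  obtain ⟨y, hy⟩ : ∃ y : ℝ, y = L ^ (1 / 40 : ℝ) := ⟨_, rfl⟩
  have hy1 : 1 ≤ y := by
    rw [hy]
    exact Real.one_le_rpow hL1'.le (by norm_num)
  obtain ⟨w, hw⟩ : ∃ w : ℕ, w = ⌊y⌋₊ := ⟨_, rfl⟩
  have hw1 : 1 ≤ w := by
    rw [hw]
    exact Nat.le_floor (by exact_mod_cast hy1)
  have hwy : (w : ℝ) ≤ y := by
    rw [hw]
    exact Nat.floor_le (by linarith)
  have hw2 : y ≤ 2 * w := by
    have h1 : y < (w : ℝ) + 1 := by
      rw [hw]
      exact Nat.lt_floor_add_one y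
    have h2 : (1 : ℝ) ≤ w := by exact_mod_cast hw1
    linarith
  have hwL : (w : ℝ) ≤ Real.log x := by
    rw [← hL]
    refine hwy.trans ?_
    rw [hy]
    calc L ^ (1 / 40 : ℝ) ≤ L ^ (1 : ℝ) :=
          Real.rpow_le_rpow_of_exponent_le hL1'.le (by norm_num)
      _ = L := Real.rpow_one L
  have hwL' : (w : ℝ) ≤ (Real.log x) ^ (1 / 40 : ℝ) := by
    rw [← hL, ← hy]
    exact hwy
  -- the parts
  have hFD : ∀ q k : ℕ, ArithF lam q k → FD lam q k ∧ q.Prime := by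
    rintro q k ⟨v, n, hk, hn, hv, _, hq, hqv, _⟩
    refine ⟨?_, hq⟩
    unfold FD
    have h1 : ((lam : ℤ) * v) = (k : ℤ) ^ 2 - k + lam := by
      have h2 : ((lam * v + k : ℕ) : ℤ) = ((k * k + lam : ℕ) : ℤ) := by rw [hv]
      push_cast at h2
      linarith
    rw [← h1]
    exact Dvd.dvd.mul_left (Int.natCast_dvd_natCast.2 hqv) _
  set B := (Real.log (Real.log x)) ^ (-(1 / 4) : ℝ) with hB
  have hB0 : 0 ≤ B := Real.rpow_nonneg (Real.log_nonneg hL1.le) _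
  have hBdef : B = (Real.log L) ^ (-(1 / 4) : ℝ) := by rw [hB, hL]
  have p1 : ((S.filter (fun k => ¬ Gd lam w k)).card : ℝ) ≤ 4 * (x * B) := by
    have h1 := cntzz_big lam x w hw1 (S.filter (fun k => ¬ Gd lam w k)) (by
      intro k hk
      rw [mem_filter] at hk
      obtain ⟨hkS, hk2⟩ := hk
      obtain ⟨hkx, q, v, n, hkn, hn, _⟩ := hS k hkS
      refine ⟨hkx, ?_⟩
      unfold Gd at hk2
      push Not at hk2
      obtain ⟨p, _, hwp, hdiv⟩ := hk2
      have hkl : k - lam = n := by omega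
      rw [hkl] at hdiv
      obtain ⟨n', hn'⟩ := hdiv
      refine ⟨p, n', hwp, ?_, ?_⟩
      · rcases Nat.eq_zero_or_pos n' with h | h
        · rw [h] at hn'
          omega
        · exact h
      · rw [← hn']
        exact hkn)
    refine h1.trans ?_
    have hw0 : (0 : ℝ) < w := by exact_mod_cast hw1
    have h2 : 1 / (w : ℝ) ≤ 2 * L ^ (-(1 / 40) : ℝ) := by
      rw [Real.rpow_neg (by linarith), ← hy, ← div_eq_mul_inv, div_le_div_iff₀ hw0 (by linarith)]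
      linarith
    have h3 := fin_pow L (1 / 40) hL1' le_rfl
    rw [← hBdef] at h3
    have h4 : (x : ℝ) / w = x * (1 / w) := by ring
    rw [h4]
    calc (x : ℝ) * (1 / w) ≤ x * (2 * (2 * B)) := by
          apply mul_le_mul_of_nonneg_left _ hx0.le
          linarith
      _ = 4 * (x * B) := by ring
  have p2 : ((S.filter (fun k => Gd lam w k ∧
      ∃ q : ℕ, (q : ℝ) ≤ (Real.log x) ^ (1 / 4 : ℝ) ∧ ArithF lam q k)).card : ℝ) ≤
      2 * C1 * (x * B) := by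
    refine (H1 x w hx hwL _ (fun k hk => ?_)).trans ?_
    · rw [mem_filter] at hk
      exact ⟨(hS k hk.1).1, hk.2.1, hk.2.2⟩
    · have h3 := fin_pow L (1 / 8) hL1' (by norm_num)
      rw [← hBdef] at h3
      rw [← hL]
      calc C1 * x * L ^ (-(1 / 8) : ℝ) ≤ C1 * x * (2 * B) :=
            mul_le_mul_of_nonneg_left h3 (by positivity)
        _ = 2 * C1 * (x * B) := by ring
  have p3 : ((S.filter (fun k => Gd lam w k ∧
      ∃ q : ℕ, (Real.log x) ^ (1 / 4 : ℝ) < q ∧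
      (q : ℝ) ≤ x / Real.exp ((Real.log x) ^ (9 / 10 : ℝ)) ∧ ArithF lam q k)).card : ℝ) ≤
      C2 * (x * B) := by
    refine (H2 x w hx hwL _ (fun k hk => ?_)).trans ?_
    · rw [mem_filter] at hk
      exact ⟨(hS k hk.1).1, hk.2.1, hk.2.2⟩
    · rw [← hB]
      exact le_of_eq (by ring)
  have p4 : ((S.filter (fun k => ∃ q : ℕ, q.Prime ∧
      (x : ℝ) / Real.exp ((Real.log x) ^ (9 / 10 : ℝ)) < q ∧
      (q : ℝ) ≤ x * Real.sqrt (Real.log x) ∧ FD lam q k)).card : ℝ) ≤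
      2 * C3 * (x * B) := by
    refine (H3 x hx _ (fun k hk => ?_)).trans ?_
    · rw [mem_filter] at hk
      exact ⟨(hS k hk.1).1, hk.2⟩
    · have h3 := fin_pow L (1 / 10) hL1' (by norm_num)
      rw [← hBdef] at h3
      rw [← hL]
      calc C3 * x * L ^ (-(1 / 10) : ℝ) ≤ C3 * x * (2 * B) :=
            mul_le_mul_of_nonneg_left h3 (by positivity)
        _ = 2 * C3 * (x * B) := by ring
  have p5 : ((S.filter (fun k => Gd lam w k ∧
      ∃ q : ℕ, x * Real.sqrt (Real.log x) < q ∧ ArithF lam q k)).card : ℝ) ≤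
      C4 * (x * B) := by
    refine (H4 x w hx hwL' _ (fun k hk => ?_)).trans ?_
    · rw [mem_filter] at hk
      exact ⟨(hS k hk.1).1, hk.2.1, hk.2.2⟩
    · rw [← hB]
      exact le_of_eq (by ring)
  have hcov : S ⊆ (S.filter (fun k => ¬ Gd lam w k)) ∪ ((S.filter (fun k => Gd lam w k ∧
      ∃ q : ℕ, (q : ℝ) ≤ (Real.log x) ^ (1 / 4 : ℝ) ∧ ArithF lam q k)) ∪
      ((S.filter (fun k => Gd lam w k ∧
      ∃ q : ℕ, (Real.log x) ^ (1 / 4 : ℝ) < q ∧
      (q : ℝ) ≤ x / Real.exp ((Real.log x) ^ (9 / 10 : ℝ)) ∧ ArithF lam q k)) ∪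
      ((S.filter (fun k => ∃ q : ℕ, q.Prime ∧
      (x : ℝ) / Real.exp ((Real.log x) ^ (9 / 10 : ℝ)) < q ∧
      (q : ℝ) ≤ x * Real.sqrt (Real.log x) ∧ FD lam q k)) ∪
      (S.filter (fun k => Gd lam w k ∧
      ∃ q : ℕ, x * Real.sqrt (Real.log x) < q ∧ ArithF lam q k))))) := by
    intro k hk
    simp only [mem_union, mem_filter]
    by_cases hg : Gd lam w k
    · obtain ⟨_, q, hq⟩ := hS k hk
      right
      rcases le_or_gt (q : ℝ) ((Real.log x) ^ (1 / 4 : ℝ)) with h1 | h1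
      · left; exact ⟨hk, hg, q, h1, hq⟩
      right
      rcases le_or_gt (q : ℝ) (x / Real.exp ((Real.log x) ^ (9 / 10 : ℝ))) with h2 | h2
      · left; exact ⟨hk, hg, q, h1, h2, hq⟩
      right
      rcases le_or_gt (q : ℝ) (x * Real.sqrt (Real.log x)) with h3 | h3
      · left; exact ⟨hk, q, (hFD q k hq).2, h2, h3, (hFD q k hq).1⟩
      right
      exact ⟨hk, hg, q, h3, hq⟩
    · left; exact ⟨hk, hg⟩
  have hcard : (S.card : ℝ) ≤ ((S.filter (fun k => ¬ Gd lam w k)).card : ℝ) +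
      (((S.filter (fun k => Gd lam w k ∧
      ∃ q : ℕ, (q : ℝ) ≤ (Real.log x) ^ (1 / 4 : ℝ) ∧ ArithF lam q k)).card : ℝ) +
      (((S.filter (fun k => Gd lam w k ∧
      ∃ q : ℕ, (Real.log x) ^ (1 / 4 : ℝ) < q ∧
      (q : ℝ) ≤ x / Real.exp ((Real.log x) ^ (9 / 10 : ℝ)) ∧ ArithF lam q k)).card : ℝ) +
      (((S.filter (fun k => ∃ q : ℕ, q.Prime ∧
      (x : ℝ) / Real.exp ((Real.log x) ^ (9 / 10 : ℝ)) < q ∧
      (q : ℝ) ≤ x * Real.sqrt (Real.log x) ∧ FD lam q k)).card : ℝ) +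
      ((S.filter (fun k => Gd lam w k ∧
      ∃ q : ℕ, x * Real.sqrt (Real.log x) < q ∧ ArithF lam q k)).card : ℝ)))) := by
    exact_mod_cast (card_le_card hcov).trans ((card_union_le _ _).trans (Nat.add_le_add_left
      ((card_union_le _ _).trans (Nat.add_le_add_left ((card_union_le _ _).trans
        (Nat.add_le_add_left (card_union_le _ _) _)) _)) _))
  calc (S.card : ℝ) ≤ _ := hcard
    _ ≤ 4 * (x * B) + (2 * C1 * (x * B) + (C2 * (x * B) + (2 * C3 * (x * B) + C4 * (x * B)))) :=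
        add_le_add p1 (add_le_add p2 (add_le_add p3 (add_le_add p4 p5)))
    _ = (4 + 2 * C1 + C2 + 2 * C3 + C4) * x * B := by ring

end Pool.Agent.Helper17.FP
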